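import Pool.Agent.helper37.ND.SpecC

set_option autoImplicit false

namespace Pool.Agent.ND

open Classical in
lemma KC1_one {Ψ : Type} [Finite Ψ] (f : Ψ → ℤ) (h : ∑ᶠ ψ, f ψ * f ψ = 1) :
    ∃ (c : Ψ) (δ : ℤ), (δ = 1 ∨ δ = -1) ∧ ∀ ψ, f ψ = δ * (if ψ = c then 1 else 0) := by
  haveI := Fintype.ofFinite Ψ
  rw [finsum_eq_sum_of_fintype] at h
  have hex : ∃ c, f c ≠ 0 := by
    by_contra hall
    push Not at hall
    rw [Finset.sum_eq_zero (fun ψ _ => by rw [hall ψ, mul_zero])] at h
    exact absurd h (by norm_num)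
  obtain ⟨c, hc⟩ := hex
  have hpos : ∀ ψ, f ψ ≠ 0 → 1 ≤ f ψ * f ψ := by
    intro ψ hψ
    have := mul_self_pos.2 hψ
    omega
  have hz : ∀ ψ, ψ ≠ c → f ψ = 0 := by
    intro ψ hψ
    by_contra hne
    have h1 := hpos ψ hne
    have h2 := hpos c hc
    have h3 : ∑ x ∈ ({ψ, c} : Finset Ψ), f x * f x ≤ ∑ x, f x * f x :=
      Finset.sum_le_sum_of_subset_of_nonneg (Finset.subset_univ _)
        (fun x _ _ => mul_self_nonneg _)
    rw [Finset.sum_pair hψ, h] at h3
    omega
  rw [Finset.sum_eq_single c (fun ψ _ hψ => by rw [hz ψ hψ, mul_zero])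
    (fun hn => absurd (Finset.mem_univ c) hn)] at h
  refine ⟨c, f c, mul_self_eq_one_iff.1 h, ?_⟩
  intro ψ
  by_cases hψ : ψ = c
  · rw [if_pos hψ, hψ, mul_one]
  · rw [if_neg hψ, hz ψ hψ, mul_zero]

open Classical in
lemma KC1_card {A : Type} [Group A] [Finite A] (K : Subgroup A) (c : ℤ) :
    ∑ᶠ t : A, (if t ∈ K then c else 0) = (Nat.card K : ℤ) * c := by
  haveI := Fintype.ofFinite A
  rw [finsum_eq_sum_of_fintype, ← Finset.sum_filter, Finset.sum_const, nsmul_eq_mul]
  have : (Nat.card K : ℤ) = ((Finset.univ.filter (fun t => t ∈ K)).card : ℤ) := by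
    rw [Nat.card_eq_fintype_card, Fintype.card_subtype]
  rw [this]

/-- The equivalence relation of the orbits of the classes. -/
def KC1_setoid {X A : Type} [Group A] (act : A → X → X) (r : X → X → Prop)
    (one : ∀ x, act 1 x = x) (mul : ∀ s t x, act (s * t) x = act s (act t x))
    (eqv : Equivalence r) (pres : ∀ t x y, r x y → r (act t x) (act t y)) : Setoid X where
  r x y := ∃ t, r (act t x) y
  iseqv := by
    refine ⟨fun x => ⟨1, by rw [one]; exact eqv.refl x⟩, ?_, ?_⟩
    · rintro x y ⟨t, ht⟩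
      refine ⟨t⁻¹, ?_⟩
      have := pres t⁻¹ _ _ ht
      rw [← mul, inv_mul_cancel, one] at this
      exact eqv.symm this
    · rintro x y z ⟨t, ht⟩ ⟨u, hu⟩
      refine ⟨u * t, ?_⟩
      rw [mul]
      exact eqv.trans (pres u _ _ ht) hu

open Classical in
theorem KC1 (hKCH : KCH_stmt) : KC1_stmt := by
  intro X A _ _ _ K act r b hA hb hfree Ψ _ w D hS
  have hone := hA.one
  have hmul := hA.mul
  have heqv := hA.eqv
  have hpres := hA.pres
  have htriv := hA.triv
  letI st : Setoid X := KC1_setoid act r hone hmul heqv hpres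
  let I : Type := Quotient st
  let θ : I → X := fun i => Quotient.out i
  have hcl : ∀ x : X, ∃ t, r (act t x) (θ (Quotient.mk st x)) := by
    intro x
    have : st.r (Quotient.out (Quotient.mk st x)) x := Quotient.mk_out x
    exact st.iseqv.symm this
  have hcl2 : ∀ (i i' : I) (t : A) (x y : X), r (θ i) x → r (θ i') y → act t y = x → i = i' := by
    intro i i' t x y hx hy hxy
    have h1 : st.r (θ i') (θ i) := by
      refine ⟨t, ?_⟩
      have := hpres t _ _ hy
      rw [hxy] at this
      exact heqv.trans this (heqv.symm hx)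
    have h2 : Quotient.mk st (θ i') = Quotient.mk st (θ i) := Quotient.sound h1
    have h3 : ∀ i : I, Quotient.mk st (θ i) = i := fun i => Quotient.out_eq i
    rw [h3, h3] at h2
    exact h2.symm
  have hmkθ : ∀ i : I, Quotient.mk st (θ i) = i := fun i => Quotient.out_eq i
  have hKpos : (0 : ℤ) < (Nat.card K : ℤ) := by
    exact_mod_cast Nat.card_pos
  -- the free action
  have hfix : ∀ (x : X) (t : A) (y y' : X), r x y → r x y' → act t y' = y → t ∈ K ∧ y' = y := by
    intro x t y y' hy hy' hty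
    have h1 : r y' (act t y') := by
      rw [hty]
      exact heqv.trans (heqv.symm hy') hy
    have h2 := hfree y' t h1
    refine ⟨h2, ?_⟩
    rw [← hty, htriv t h2]
  let J : Type := {p : I × X // r (θ p.1) p.2 ∧ p.2 ≠ θ p.1}
  let f : J → I := fun j => j.1.1
  let v : J → Ψ → ℤ := fun j ψ => D ψ (θ j.1.1) j.1.2
  haveI : Finite I := Quotient.finite st
  haveI : Finite J := Subtype.finite
  have hdeg : ∀ j, ∑ᶠ ψ, w ψ * v j ψ = 0 := fun j => hS.dg _ _ j.2.1
  have hgram : ∀ j k, ∑ᶠ ψ, v j ψ * v k ψ =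
      if f j = f k then (1 : ℤ) + (if j = k then 1 else 0) else 0 := by
    intro j k
    have h1 := hS.gr (θ j.1.1) j.1.2 (θ k.1.1) k.1.2 j.2.1 k.2.1
    refine mul_left_cancel₀ hKpos.ne' ?_
    refine h1.trans ?_
    by_cases hjk : f j = f k
    · rw [if_pos hjk]
      have hjk' : j.1.1 = k.1.1 := hjk
      rw [← KC1_card]
      refine finsum_congr ?_
      intro t
      have hθ : θ k.1.1 = θ j.1.1 := by rw [hjk']
      have hk1 : r (θ j.1.1) k.1.2 := by rw [← hθ]; exact k.2.1
      rw [hθ]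
      have e1 : act t (θ j.1.1) = θ j.1.1 ↔ t ∈ K :=
        ⟨fun h => (hfix _ t _ _ (heqv.refl _) (heqv.refl _) h).1, fun h => htriv t h _⟩
      have e2 : ¬ act t (θ j.1.1) = j.1.2 := by
        intro h
        have := (hfix _ t _ _ j.2.1 (heqv.refl _) h).2
        exact j.2.2 this.symm
      have e3 : ¬ act t k.1.2 = θ j.1.1 := by
        intro h
        have := (hfix _ t _ _ (heqv.refl _) hk1 h).2
        exact k.2.2 (by rw [this, hθ])
      have e4 : act t k.1.2 = j.1.2 ↔ t ∈ K ∧ j = k := by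
        constructor
        · intro h
          have h5 := hfix _ t _ _ j.2.1 hk1 h
          exact ⟨h5.1, Subtype.ext (Prod.ext hjk' h5.2.symm)⟩
        · rintro ⟨h5, h6⟩
          rw [htriv t h5, h6]
      rw [if_neg e2, if_neg e3, if_congr e1 rfl rfl, if_congr e4 rfl rfl]
      by_cases ht : t ∈ K
      · by_cases hh : j = k
        · simp [ht, hh]
        · simp [ht, hh]
      · simp [ht]
    · rw [if_neg hjk, mul_zero]
      have hz : ∀ (t : A) (x y : X), r (θ j.1.1) x → r (θ k.1.1) y → ¬ act t y = x := by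
        intro t x y hx hy h
        exact hjk (hcl2 _ _ t x y hx hy h)
      have : ∀ t : A, ((if act t (θ k.1.1) = θ j.1.1 then (1 : ℤ) else 0) -
          (if act t (θ k.1.1) = j.1.2 then 1 else 0) - (if act t k.1.2 = θ j.1.1 then 1 else 0) +
          (if act t k.1.2 = j.1.2 then 1 else 0)) = 0 := by
        intro t
        rw [if_neg (hz t _ _ (heqv.refl _) (heqv.refl _)), if_neg (hz t _ _ j.2.1 (heqv.refl _)),
          if_neg (hz t _ _ (heqv.refl _) k.2.1), if_neg (hz t _ _ j.2.1 k.2.1)]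
        rfl
      rw [finsum_congr this, finsum_zero]
  have hsize : ∀ i i' : I, (fun _ : I => (1 : ℤ)) i' + 3 ≤ (Nat.card {j : J // f j = i} : ℤ) := by
    intro i _
    have h1 : 5 ≤ Nat.card {y : X // r (θ i) y} := by
      refine le_trans ?_ (hA.sz (θ i))
      nlinarith
    have h2 : Nat.card {y : X // r (θ i) y} ≤ Nat.card {j : J // f j = i} + 1 := by
      have : Nat.card {y : X // r (θ i) y} ≤ Nat.card (Option {j : J // f j = i}) := by
        refine Nat.card_le_card_of_injective
          (fun y => if h : y.1 = θ i then none else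
            some (⟨⟨(i, y.1), ⟨y.2, h⟩⟩, rfl⟩ : {j : J // f j = i})) ?_
        intro y y' hyy
        by_cases h : y.1 = θ i
        · by_cases h' : y'.1 = θ i
          · exact Subtype.ext (h.trans h'.symm)
          · simp only [dif_pos h, dif_neg h'] at hyy
            exact absurd hyy (by simp)
        · by_cases h' : y'.1 = θ i
          · simp only [dif_neg h, dif_pos h'] at hyy
            exact absurd hyy (by simp)
          · simp only [dif_neg h, dif_neg h', Option.some.injEq, Subtype.mk.injEq] at hyy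
            exact Subtype.ext (congrArg (fun j : J => j.1.2) hyy)
      rwa [Finite.card_option] at this
    have h3 : 4 ≤ Nat.card {j : J // f j = i} := by omega
    have h4 : (4 : ℤ) ≤ (Nat.card {j : J // f j = i} : ℤ) := by exact_mod_cast h3
    simpa using h4
  obtain ⟨Y, ε, a, hε, hainj, hv, hYa, hYY⟩ := hKCH Ψ I J f (fun _ => 1) v w hS.wp
    (fun _ => le_rfl) hdeg (fun j k => (hgram j k).trans (by split_ifs <;> rfl)) hsize
  have hc : ∀ i, ∃ (c : Ψ) (δ : ℤ), (δ = 1 ∨ δ = -1) ∧ ∀ ψ, Y i ψ = δ * (if ψ = c then 1 else 0) := by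
    intro i
    refine KC1_one (Y i) ?_
    rw [hYY i i, if_pos rfl]
  choose c δ hδ hYc using hc
  have hJne : ∀ i : I, ∃ j : J, f j = i := by
    intro i
    have h4 := hsize i i
    have : 0 < Nat.card {j : J // f j = i} := by
      have h5 : (0 : ℤ) < (Nat.card {j : J // f j = i} : ℤ) := by
        refine lt_of_lt_of_le ?_ h4
        norm_num
      exact_mod_cast h5
    haveI := (Nat.card_pos_iff.1 this).1
    obtain ⟨j, hj⟩ := (inferInstance : Nonempty {j : J // f j = i})
    exact ⟨j, hj⟩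
  haveI := Fintype.ofFinite Ψ
  have hδε : ∀ i, δ i = ε i := by
    intro i
    obtain ⟨j, hj⟩ := hJne i
    have h1 := hdeg j
    rw [finsum_eq_sum_of_fintype] at h1
    have h2 : ∀ ψ, w ψ * v j ψ = (if ψ = c i then δ i * w ψ else 0) -
        (if ψ = a j then ε i * w ψ else 0) := by
      intro ψ
      rw [hv j ψ, hj, hYc i ψ]
      split_ifs <;> ring
    rw [Finset.sum_congr rfl (fun ψ _ => h2 ψ), Finset.sum_sub_distrib,
      Finset.sum_ite_eq' Finset.univ (c i), Finset.sum_ite_eq' Finset.univ (a j),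
      if_pos (Finset.mem_univ _), if_pos (Finset.mem_univ _)] at h1
    have hw1 := hS.wp (c i)
    have hw2 := hS.wp (a j)
    rcases hδ i with h3 | h3 <;> rcases hε i with h4 | h4 <;> rw [h3, h4] at h1 ⊢ <;> omega
  have hε0 : ∀ i, ε i ≠ 0 := by
    intro i h0
    rcases hε i with h | h <;> omega
  have hca : ∀ i j, c i ≠ a j := by
    intro i j h
    have h1 := hYa i j
    rw [hYc i (a j), if_pos h.symm, mul_one, hδε] at h1
    exact hε0 i h1
  have hcc : ∀ i i', c i = c i' → i = i' := by
    intro i i' h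
    by_contra hne
    have h1 := hYY i i'
    rw [if_neg hne, finsum_eq_sum_of_fintype, Finset.sum_eq_single (c i)] at h1
    · rw [hYc i (c i), hYc i' (c i), if_pos rfl, if_pos h, mul_one, mul_one, hδε, hδε] at h1
      rcases mul_eq_zero.1 h1 with h2 | h2
      · exact hε0 _ h2
      · exact hε0 _ h2
    · intro ψ _ hψ
      rw [hYc i ψ, if_neg hψ, mul_zero, zero_mul]
    · intro hn
      exact absurd (Finset.mem_univ _) hn
  choose τ hτ using hcl
  -- the coordinates
  let ξ : X → Ψ := fun x => if h : act (τ x) x = θ (Quotient.mk st x) then c (Quotient.mk st x)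
    else a ⟨(Quotient.mk st x, act (τ x) x), ⟨heqv.symm (hτ x), h⟩⟩
  have hD0 : ∀ ψ x, D ψ x x = 0 := by
    intro ψ x
    have := hS.ad ψ x x x (heqv.refl x) (heqv.refl x)
    omega
  have hDξ : ∀ ψ x, D ψ (θ (Quotient.mk st x)) (act (τ x) x) =
      ε (Quotient.mk st x) * ((if ψ = c (Quotient.mk st x) then 1 else 0) -
        (if ψ = ξ x then 1 else 0)) := by
    intro ψ x
    by_cases h : act (τ x) x = θ (Quotient.mk st x)
    · have h1 : ξ x = c (Quotient.mk st x) := dif_pos h
      rw [h1, h, hD0, sub_self, mul_zero]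
    · have h1 : ξ x = a ⟨(Quotient.mk st x, act (τ x) x), ⟨heqv.symm (hτ x), h⟩⟩ := dif_neg h
      have h2 := hv ⟨(Quotient.mk st x, act (τ x) x), ⟨heqv.symm (hτ x), h⟩⟩ ψ
      rw [h1]
      refine h2.trans ?_
      change Y (Quotient.mk st x) ψ - ε (Quotient.mk st x) * _ = _
      rw [hYc, hδε]
      ring
  refine ⟨ξ, fun x => ε (Quotient.mk st x), fun x => hε _, ?_, ?_⟩
  · intro ψ x y hxy
    have hq : Quotient.mk st y = Quotient.mk st x := by
      refine (Quotient.sound ?_).symm
      exact ⟨1, by rw [hone]; exact hxy⟩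
    have hx1 := hτ x
    have hy1 := hτ y
    rw [hq] at hy1
    have hxy1 : r (act (τ x) x) (act (τ x) y) := hpres (τ x) x y hxy
    have hy2 : r (θ (Quotient.mk st x)) (act (τ x) y) :=
      heqv.trans (heqv.symm hx1) hxy1
    have hyy : act (τ x) y = act (τ y) y := by
      have h3 : act (τ y * (τ x)⁻¹) (act (τ x) y) = act (τ y) y := by
        rw [hmul, ← hmul (τ x)⁻¹, inv_mul_cancel, hone]
      exact (hfix _ _ _ _ (heqv.symm hy1) hy2 h3).2
    have h4 : D ψ x y = D ψ (act (τ x) x) (act (τ y) y) := by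
      rw [← hyy, hS.eq ψ (τ x) x y hxy]
    have h5 := hS.ad ψ (θ (Quotient.mk st x)) (act (τ x) x) (act (τ y) y) (heqv.symm hx1)
      (by rw [← hyy]; exact hxy1)
    have h6 := hDξ ψ x
    have h7 := hDξ ψ y
    rw [hq] at h7
    rw [h4]
    have h8 : D ψ (act (τ x) x) (act (τ y) y) = D ψ (θ (Quotient.mk st x)) (act (τ y) y) -
        D ψ (θ (Quotient.mk st x)) (act (τ x) x) := by omega
    rw [h8, h6, h7]
    ring
  · intro x y hxy
    have hfin : act (τ x) x = act (τ y) y → ∃ t, y = act t x := by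
      intro h
      refine ⟨(τ y)⁻¹ * τ x, ?_⟩
      rw [hmul, h, ← hmul, inv_mul_cancel, hone]
    by_cases h : act (τ x) x = θ (Quotient.mk st x)
    · have h1 : ξ x = c (Quotient.mk st x) := dif_pos h
      by_cases h' : act (τ y) y = θ (Quotient.mk st y)
      · have h2 : ξ y = c (Quotient.mk st y) := dif_pos h'
        rw [h1, h2] at hxy
        have h3 := hcc _ _ hxy
        exact hfin (by rw [h, h', h3])
      · have h2 : ξ y = a ⟨(Quotient.mk st y, act (τ y) y), ⟨heqv.symm (hτ y), h'⟩⟩ := dif_neg h'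
        rw [h1, h2] at hxy
        exact absurd hxy (hca _ _)
    · have h1 : ξ x = a ⟨(Quotient.mk st x, act (τ x) x), ⟨heqv.symm (hτ x), h⟩⟩ := dif_neg h
      by_cases h' : act (τ y) y = θ (Quotient.mk st y)
      · have h2 : ξ y = c (Quotient.mk st y) := dif_pos h'
        rw [h1, h2] at hxy
        exact absurd hxy.symm (hca _ _)
      · have h2 : ξ y = a ⟨(Quotient.mk st y, act (τ y) y), ⟨heqv.symm (hτ y), h'⟩⟩ := dif_neg h'
        rw [h1, h2] at hxy
        have h3 := hainj hxy
        have h4 := congrArg (fun j : J => j.1.2) h3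
        exact hfin h4

end Pool.Agent.ND
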